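import Pool.Agent.TH227.CM.Coding
import Pool.Agent.TH227.SB.Conn
import Pool.Agent.TH227.BM.Red

/-!
MP_70674c_lc, Q2: for every `n ≥ 2`, diffeomorphism of connected smooth `n`-manifolds with boundary
is Borel reducible to diffeomorphism of connected smooth `n`-manifolds without boundary.
-/

set_option autoImplicit false

open Set Filter Topology
open scoped ContDiff Manifold

namespace Pool.Agent.Results.MP_70674c_lc.BoundaryRemoved

open Pool.Agent.TH227

/-! ### Manifolds without boundary -/

/-- The space of codes of connected smooth `n`-manifolds: a code is a sequence of open subsets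
`V i i` of `ℝⁿ` together with smooth gluing maps `φ i j` from the open subset `V i j` of `V i i` onto
the open subset `V j i` of `V j j`, satisfying the cocycle conditions and the Hausdorff condition;
`c.Pts` is the manifold glued from these data, and it has to be connected. -/
def ConnCode (n : ℕ) : Type :=
  {c : CM.Code (EuclideanSpace ℝ (Fin n)) // ConnectedSpace c.Pts}

/-- The Borel structure of the space of codes: it is generated by the conditions `S ⊆ V i j`, for `S`
compact, and `φ i j x ∈ B`, for `x` a point and `B` a Borel set. -/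
noncomputable instance connBorel (n : ℕ) : MeasurableSpace (ConnCode n) :=
  MeasurableSpace.comap Subtype.val
    (CM.measC : MeasurableSpace (CM.Code (EuclideanSpace ℝ (Fin n))))

/-- The coded manifold. -/
abbrev Coded (n : ℕ) (c : ConnCode n) : Type := CM.Code.Pts c.1

/-- The coded manifolds are diffeomorphic. -/
def Diffeomorphic (n : ℕ) (c c' : ConnCode n) : Prop :=
  Nonempty (Diffeomorph 𝓘(ℝ, EuclideanSpace ℝ (Fin n)) 𝓘(ℝ, EuclideanSpace ℝ (Fin n))
    (Coded n c) (Coded n c') ∞)

/-- The coded space is a connected Hausdorff second countable smooth `n`-manifold. -/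
def GluesToManifold (n : ℕ) (c : ConnCode n) : Prop :=
  T2Space (Coded n c) ∧ SecondCountableTopology (Coded n c) ∧ ConnectedSpace (Coded n c) ∧
    IsManifold 𝓘(ℝ, EuclideanSpace ℝ (Fin n)) ∞ (Coded n c)

/-- The smooth manifold `N` is diffeomorphic to a coded one. -/
def HasCode (n : ℕ) (N : Type) [TopologicalSpace N] [ChartedSpace (EuclideanSpace ℝ (Fin n)) N] :
    Prop :=
  ∃ c : ConnCode n, Nonempty (Diffeomorph 𝓘(ℝ, EuclideanSpace ℝ (Fin n))
    𝓘(ℝ, EuclideanSpace ℝ (Fin n)) N (Coded n c) ∞)

/-! ### Manifolds with boundary -/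

/-- The half-space of the points of `ℝⁿ` whose first coordinate is nonnegative. -/
noncomputable instance half (n : ℕ) [NeZero n] : BM.Half (EuclideanSpace ℝ (Fin n)) where
  lam := EuclideanSpace.proj 0
  e := EuclideanSpace.single 0 1
  lam_e := by simp

/-- The space of codes of connected smooth `n`-manifolds with boundary: a code is a sequence of open
subsets `V i i` of the closed half-space together with gluing maps `φ i j`, smooth up to the boundary,
from the open subset `V i j` of `V i i` onto the open subset `V j i` of `V j j`, satisfying the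
cocycle conditions and the Hausdorff condition; `c.Pts` is the manifold with boundary glued from
these data, and it has to be connected. -/
def BCode (n : ℕ) [NeZero n] : Type :=
  {c : BM.Code (EuclideanSpace ℝ (Fin n)) // ConnectedSpace c.Pts}

/-- The Borel structure of the space of codes: it is generated by the conditions `S ⊆ V i j`, for `S`
compact, and `φ i j x ∈ B`, for `x` a point and `B` a Borel set. -/
noncomputable instance bBorel (n : ℕ) [NeZero n] : MeasurableSpace (BCode n) :=
  MeasurableSpace.comap Subtype.val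
    (BM.measC : MeasurableSpace (BM.Code (EuclideanSpace ℝ (Fin n))))

/-- The coded manifold with boundary. -/
abbrev BCoded (n : ℕ) [NeZero n] (c : BCode n) : Type := BM.Code.Pts c.1

/-- The charts of the coded manifold with boundary. -/
noncomputable instance bCharted (n : ℕ) [NeZero n] (c : BCode n) :
    ChartedSpace (EuclideanHalfSpace n) (BCoded n c) :=
  BM.Code.chartedPts c.1

/-- The coded manifolds with boundary are diffeomorphic. -/
def BDiffeomorphic (n : ℕ) [NeZero n] (c c' : BCode n) : Prop :=
  Nonempty (Diffeomorph (𝓡∂ n) (𝓡∂ n) (BCoded n c) (BCoded n c') ∞)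

/-- The coded space is a connected Hausdorff second countable smooth `n`-manifold with boundary. -/
def BGluesToManifold (n : ℕ) [NeZero n] (c : BCode n) : Prop :=
  T2Space (BCoded n c) ∧ SecondCountableTopology (BCoded n c) ∧ ConnectedSpace (BCoded n c) ∧
    IsManifold (𝓡∂ n) ∞ (BCoded n c)

/-- The smooth manifold with boundary `N` is diffeomorphic to a coded one. -/
def BHasCode (n : ℕ) [NeZero n] (N : Type) [TopologicalSpace N]
    [ChartedSpace (EuclideanHalfSpace n) N] : Prop :=
  ∃ c : BCode n, Nonempty (Diffeomorph (𝓡∂ n) (𝓡∂ n) N (BCoded n c) ∞)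

/-- Borel reducibility of the relation `R` on `A` to the relation `S` on `B`. -/
def BorelReducible {A B : Type} [MeasurableSpace A] [MeasurableSpace B] (R : A → A → Prop)
    (S : B → B → Prop) : Prop :=
  ∃ F : A → B, Measurable F ∧ ∀ x x', R x x' ↔ S (F x) (F x')

theorem incl (n : ℕ) [NeZero n] : BM.Incl (E := EuclideanSpace ℝ (Fin n)) (𝓡∂ n) := fun _ => rfl

/-- For every `n ≥ 1`: every code glues to a connected smooth `n`-manifold (with boundary), and
every connected Hausdorff second countable smooth `n`-manifold (with boundary) is diffeomorphic to a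
coded one. For every `n ≥ 1` and every `m ≥ 2`, diffeomorphism of connected smooth `n`-manifolds with
boundary is Borel reducible to diffeomorphism of connected smooth `m`-manifolds without boundary;
in particular this holds for `n = m ≥ 2`. -/
theorem result :
    (∀ n : ℕ, StandardBorelSpace (ConnCode n)) ∧
    (∀ (n : ℕ) (c : ConnCode n), GluesToManifold n c) ∧
    (∀ (n : ℕ) (N : Type) [TopologicalSpace N] [ChartedSpace (EuclideanSpace ℝ (Fin n)) N]
      [IsManifold 𝓘(ℝ, EuclideanSpace ℝ (Fin n)) ∞ N] [T2Space N] [SecondCountableTopology N]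
      [ConnectedSpace N], HasCode n N) ∧
    (∀ (n : ℕ) [NeZero n] (c : BCode n), BGluesToManifold n c) ∧
    (∀ (n : ℕ) [NeZero n] (N : Type) [TopologicalSpace N]
      [ChartedSpace (EuclideanHalfSpace n) N] [IsManifold (𝓡∂ n) ∞ N] [T2Space N]
      [SecondCountableTopology N] [ConnectedSpace N], BHasCode n N) ∧
    (∀ (n : ℕ) [NeZero n], 2 ≤ n → BorelReducible (BDiffeomorphic n) (Diffeomorphic n)) ∧
    (∀ (n : ℕ) [NeZero n] (m : ℕ), 2 ≤ m →
      BorelReducible (BDiffeomorphic n) (Diffeomorphic m)) := by
  have key : ∀ (n : ℕ) [NeZero n] (m : ℕ), 2 ≤ m →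
      BorelReducible (BDiffeomorphic n) (Diffeomorphic m) := by
    intro n _ m hm
    obtain ⟨F, hF, hc, hi⟩ := BM.reduction
      (E₁ := EuclideanSpace ℝ (Fin n)) (E := EuclideanSpace ℝ (Fin m)) (incl n)
      { e0 := EuclideanSpace.single ⟨0, by omega⟩ 1
        e1 := EuclideanSpace.single ⟨1, by omega⟩ 1
        h0 := by simp
        h1 := by simp
        h01 := by simp [EuclideanSpace.inner_single_left] }
    refine ⟨fun c => ⟨F c.1, hc c.1⟩, ?_, fun c c' => hi c.1 c'.1⟩
    rintro A ⟨B, hB, rfl⟩
    exact ⟨F ⁻¹' B, hF hB, rfl⟩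
  refine ⟨fun n => SB.sb_conn, fun n c => ⟨inferInstance, inferInstance, c.2, inferInstance⟩, ?_,
    fun n _ c => ⟨inferInstance, inferInstance, c.2, BM.Code.manifoldPts (incl n) c.1⟩, ?_,
    fun n _ hn => key n n hn, key⟩
  · intro n N _ _ _ _ _ _
    obtain ⟨c, ⟨f⟩⟩ := CM.exists_code (E := EuclideanSpace ℝ (Fin n)) (N := N)
    have hc : ConnectedSpace c.Pts :=
      f.toEquiv.surjective.connectedSpace f.contMDiff_toFun.continuous
    exact ⟨⟨c, hc⟩, ⟨f⟩⟩
  · intro n _ N _ hch hman _ _ _
    obtain ⟨c, hc, hf⟩ := @BM.exists_code_conn (EuclideanSpace ℝ (Fin n)) _ _ _ N _ hch _ (𝓡∂ n)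
      (incl n) hman _ _
    exact ⟨⟨c, hc⟩, hf⟩

end Pool.Agent.Results.MP_70674c_lc.BoundaryRemoved
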